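import Mathlib
import Pool.Agent.E8helper51.O5
set_option autoImplicit false

/-!
# The restriction conjecture for functions of a quadratic polynomial

Let `n ≥ 3` and let `p(ξ) = ⟨Bξ, ξ⟩ + ⟨l, ξ⟩` be a quadratic polynomial on `ℝ^n`, where the matrix
`B` is positive definite and has distinct eigenvalues. For all `q > 2(n+1)/n`, the full range of the
conjecture in `ℝ^(n+1)`, the extension operator `E` of the paraboloid maps all functions
`w(ξ) F(p(ξ))` to `L^q(ℝ^(n+1))`, where `F` is an arbitrary measurable function and `w` is a window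
supported in the cube. The bound is the `L^q` norm of `F ∘ p` on `[-2,2]^n`.
-/

namespace Pool.Agent.Results.MP_b7167f_an.QuadraticFormFunctionsH51

open MeasureTheory Set Complex
open scoped ENNReal NNReal Matrix

/-- The extension operator of the paraboloid over the cube `[-1,1]^n`:
`E f(x,t) = ∫_{[-1,1]^n} f(ξ) exp(2πi(ξ·x + t |ξ|^2)) dξ`. -/
noncomputable def ext {n : ℕ} (f : (Fin n → ℝ) → ℂ) (y : (Fin n → ℝ) × ℝ) : ℂ :=
  ∫ ξ in Icc (-1) 1, f ξ *
    cexp (2 * Real.pi * I * ((∑ j, ξ j * y.1 j + (∑ j, ξ j ^ 2) * y.2 : ℝ) : ℂ))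

/-- The inverse Fourier transform `w(ξ) = ∫ φ(η) exp(2πi ξ·η) dη` of `φ ∈ L^1`. -/
noncomputable def window {n : ℕ} (φ : (Fin n → ℝ) → ℂ) (ξ : Fin n → ℝ) : ℂ :=
  ∫ η, φ η * cexp (2 * Real.pi * I * ((∑ j, ξ j * η j : ℝ) : ℂ))

/-- The quadratic polynomial `p(ξ) = ⟨ξ, Bξ⟩ + ⟨l, ξ⟩`. -/
def quad {n : ℕ} (B : Matrix (Fin n) (Fin n) ℝ) (l ξ : Fin n → ℝ) : ℝ :=
  ξ ⬝ᵥ (B *ᵥ ξ) + l ⬝ᵥ ξ

/-- Let `n ≥ 3`, let `B` be a positive definite `n × n` matrix with distinct eigenvalues, `l ∈ ℝ^n`,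
`p(ξ) = ⟨ξ, Bξ⟩ + ⟨l, ξ⟩` and `q > 2(n+1)/n`. There is a constant `C` such that for every measurable
`F : ℝ → ℂ` and every window `w = window φ`, `φ ∈ L^1(ℝ^n)`, which vanishes outside the cube
`[-1,1]^n`, one has `‖E(w · F∘p)‖_{L^q(ℝ^(n+1))}^q ≤ C ‖φ‖_1^q ‖F∘p‖_{L^q([-2,2]^n)}^q`. -/
theorem result (n : ℕ) (hn : 3 ≤ n) (B : Matrix (Fin n) (Fin n) ℝ) (hB : B.PosDef)
    (hinj : Function.Injective hB.isHermitian.eigenvalues) (l : Fin n → ℝ) (q : ℝ)
    (hq : 2 * ((n : ℝ) + 1) / n < q) :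
    ∃ C : ℝ≥0, ∀ F : ℝ → ℂ, Measurable F → ∀ φ : (Fin n → ℝ) → ℂ, Integrable φ →
      (∀ ξ, ξ ∉ Icc (-1 : Fin n → ℝ) 1 → window φ ξ = 0) →
        ∫⁻ y : (Fin n → ℝ) × ℝ, ‖ext (fun ξ => window φ ξ * F (quad B l ξ)) y‖ₑ ^ q ≤
          C * (∫⁻ η, ‖φ η‖ₑ) ^ q * ∫⁻ ξ in Icc (-2) 2, ‖F (quad B l ξ)‖ₑ ^ q := by
  obtain ⟨m, rfl⟩ : ∃ m, n = m + 3 := ⟨n - 3, by omega⟩
  have hm3 : (0 : ℝ) < (m : ℝ) + 3 := by positivity
  have hq' : 2 + 2 / ((m : ℝ) + 3) < q := by
    have : 2 + 2 / ((m : ℝ) + 3) = 2 * (((m + 3 : ℕ) : ℝ) + 1) / ((m + 3 : ℕ) : ℝ) := by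
      push_cast
      field_simp
    rw [this]
    exact hq
  have hq0 : 0 < q := by
    have : 0 < 2 / ((m : ℝ) + 3) := by positivity
    linarith
  have hq1 : 1 ≤ q := by
    have : 0 < 2 / ((m : ℝ) + 3) := by positivity
    linarith
  obtain ⟨C, hC, K, hK, hmain⟩ := Pool.Agent.E8helper51.main_poly hB hinj l q hq'
  refine ⟨C.toNNReal + 1, fun F hF φ hφ hφs => ?_⟩
  have hCc : (((C.toNNReal + 1 : ℝ≥0)) : ℝ≥0∞) = C + 1 := by
    rw [ENNReal.coe_add, ENNReal.coe_toNNReal hC.ne, ENNReal.coe_one]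
  rw [hCc]
  set g := Pool.Agent.E8helper51.f0 B l F with hg
  set J : ℝ≥0∞ := ∫⁻ ξ in Icc (-2) 2, ‖F (quad B l ξ)‖ₑ ^ q with hJ
  obtain ⟨hsupp, h1, h2⟩ := hmain F hF
  have hext : ∀ y, ext (fun ξ => window φ ξ * F (quad B l ξ)) y =
      Pool.Agent.H153R4.ext0 (Pool.Agent.E8helper51.one (m + 3))
        (fun ξ => Pool.Agent.E8helper51.wnd φ ξ * g ξ) y := by
    intro y
    unfold ext Pool.Agent.H153R4.ext0
    rw [← integral_indicator measurableSet_Icc]
    apply integral_congr_ae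
    refine ae_of_all _ fun ξ => ?_
    simp only
    by_cases h : ξ ∈ Icc (-1 : Fin (m + 3) → ℝ) 1
    · rw [indicator_of_mem h]
      have e1 : g ξ = F (quad B l ξ) := by
        rw [hg]
        unfold Pool.Agent.E8helper51.f0
        rw [indicator_of_mem]
        · rfl
        · exact ⟨ξ, h, rfl⟩
      have e2 : Pool.Agent.H153R4.ph (Pool.Agent.E8helper51.one (m + 3)) ξ y =
          ∑ j, ξ j * y.1 j + (∑ j, ξ j ^ 2) * y.2 := by
        unfold Pool.Agent.H153R4.ph Pool.Agent.E8helper51.one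
        simp only [one_mul]
      rw [e1, e2]
      rfl
    · rw [indicator_of_notMem h, show Pool.Agent.E8helper51.wnd φ ξ = 0 from hφs ξ h, zero_mul,
        zero_mul]
  simp only [hext]
  rcases eq_or_ne (∫⁻ η, ‖φ η‖ₑ) 0 with h0 | h0
  · have hφ0 : φ =ᵐ[volume] 0 := by
      rw [lintegral_eq_zero_iff' hφ.1.enorm] at h0
      filter_upwards [h0] with η hη
      simpa using hη
    have hw : ∀ ξ, Pool.Agent.E8helper51.wnd φ ξ = 0 := by
      intro ξ
      unfold Pool.Agent.E8helper51.wnd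
      apply integral_eq_zero_of_ae
      filter_upwards [hφ0] with η hη
      rw [hη]
      simp
    have : ∀ y : (Fin (m + 3) → ℝ) × ℝ,
        Pool.Agent.H153R4.ext0 (Pool.Agent.E8helper51.one (m + 3))
        (fun ξ => Pool.Agent.E8helper51.wnd φ ξ * g ξ) y = 0 := by
      intro y
      unfold Pool.Agent.H153R4.ext0
      simp [hw]
    simp [this, ENNReal.zero_rpow_of_pos hq0]
  · by_cases hfin : J = ⊤
    · rw [hfin, ENNReal.mul_top]
      · exact le_top
      · refine mul_ne_zero (by simp) ?_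
        rw [ne_eq, ENNReal.rpow_eq_zero_iff]
        rintro (h | h)
        · exact h0 h.1
        · linarith
    · -- a measurable representative of `φ`
      set ψ := hφ.1.mk φ with hψ
      have hψm : Measurable ψ := hφ.1.stronglyMeasurable_mk.measurable
      have hψe : φ =ᵐ[volume] ψ := hφ.1.ae_eq_mk
      have hψi : Integrable ψ := hφ.congr hψe
      have hwe : Pool.Agent.E8helper51.wnd φ = Pool.Agent.E8helper51.wnd ψ := by
        funext ξ
        unfold Pool.Agent.E8helper51.wnd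
        apply integral_congr_ae
        filter_upwards [hψe] with η hη
        rw [hη]
      have hne : ∫⁻ η, ‖φ η‖ₑ = ∫⁻ η, ‖ψ η‖ₑ := by
        apply lintegral_congr_ae
        filter_upwards [hψe] with η hη
        rw [hη]
      have hgm : Measurable g := Pool.Agent.E8helper51.f0_meas B l hF
      have hgi : Integrable g := by
        refine ⟨hgm.aestronglyMeasurable, ?_⟩
        have h3 : ∀ ξ, ‖g ξ‖ₑ ≤ K.indicator (fun _ => (1 : ℝ≥0∞)) ξ + ‖g ξ‖ₑ ^ q := by
          intro ξ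
          by_cases hξ : ξ ∈ K
          · rw [indicator_of_mem hξ]
            have := Pool.Agent.E8helper51.pow_le_one_add (x := ‖g ξ‖ₑ) zero_le_one hq1
            rwa [ENNReal.rpow_one] at this
          · have hz : g ξ = 0 := hsupp ξ hξ
            rw [hz, enorm_zero]
            exact zero_le
        refine lt_of_le_of_lt (lintegral_mono h3) ?_
        rw [lintegral_add_left (measurable_const.indicator hK.isClosed.measurableSet),
          lintegral_indicator hK.isClosed.measurableSet, setLIntegral_const, one_mul]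
        exact ENNReal.add_lt_top.2 ⟨hK.measure_lt_top,
          lt_of_le_of_lt h1 (ENNReal.mul_lt_top hC (lt_top_iff_ne_top.2 hfin))⟩
      rw [hwe, hne]
      refine (Pool.Agent.E8helper51.ext0_wnd_lq (Pool.Agent.E8helper51.one (m + 3)) hψi hψm
        hgi hgm q hq1).trans ?_
      calc (∫⁻ η, ‖ψ η‖ₑ) ^ q * ∫⁻ y, ‖Pool.Agent.H153R4.ext0
            (Pool.Agent.E8helper51.one (m + 3)) g y‖ₑ ^ q
          ≤ (∫⁻ η, ‖ψ η‖ₑ) ^ q * (C * J) := mul_le_mul' le_rfl h2
        _ = C * (∫⁻ η, ‖ψ η‖ₑ) ^ q * J := by ring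
        _ ≤ (C + 1) * (∫⁻ η, ‖ψ η‖ₑ) ^ q * J :=
            mul_le_mul' (mul_le_mul' le_self_add le_rfl) le_rfl

end Pool.Agent.Results.MP_b7167f_an.QuadraticFormFunctionsH51
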