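import Mathlib
import Pool.Agent.E8helper87.Rst.Uniq
set_option autoImplicit false

/-!
# Uniqueness sets of almost full measure, if the restriction conjecture for the paraboloid fails

Let `d = n + 1`. For every `ε > 0` there is one compact set `A ⊆ [-1,1]^n` with
`|[-1,1]^n \ A| < ε` such that for every exponent `2 < q < ∞` the estimate `‖Ef‖_q ≤ C ‖f‖_∞` of the
restriction conjecture holds if and only if `A` carries a nonzero complex measure `μ` with
`Eμ ∈ L^q(ℝ^d)`. So, if the estimate fails for `q`, there are sets of almost full measure on the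
paraboloid which are sets of uniqueness for `L^q`: they carry no nonzero complex measure at all
whose extension is in `L^q`.
-/

namespace Pool.Agent.Results.MP_b7167f_an.UniquenessSetsH87

open MeasureTheory Set Complex
open scoped ENNReal NNReal

/-- The closed cube `[-1,1]^n`, where `n = d - 1`. -/
abbrev cube (n : ℕ) : Set (Fin n → ℝ) := Icc (fun _ : Fin n => (-1 : ℝ)) (fun _ => 1)

/-- The function `exp(2πi(ξ·x + |ξ|² t))` of `ξ ∈ ℝ^n` and `(x, t) ∈ ℝ^(n+1)`. -/
noncomputable def wave {n : ℕ} (ξ : Fin n → ℝ) (y : (Fin n → ℝ) × ℝ) : ℂ :=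
  cexp (2 * Real.pi * I * ((∑ j, ξ j * y.1 j + (∑ j, ξ j ^ 2) * y.2 : ℝ) : ℂ))

/-- The extension operator of the truncated paraboloid in `ℝ^(n+1)`. -/
noncomputable def ext {n : ℕ} (f : (Fin n → ℝ) → ℂ) (y : (Fin n → ℝ) × ℝ) : ℂ :=
  ∫ ξ in cube n, f ξ * wave ξ y

/-- The extension of the complex measure `g ν`. -/
noncomputable def extMeasure {n : ℕ} (ν : Measure (Fin n → ℝ)) (g : (Fin n → ℝ) → ℂ)
    (y : (Fin n → ℝ) × ℝ) : ℂ :=
  ∫ ξ, g ξ * wave ξ y ∂ν

/-- The estimate of the restriction conjecture at the exponent `q` in dimension `d = n + 1`: there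
is a constant `C` with `‖Ef‖_{L^q(ℝ^d)} ≤ C ‖f‖_∞` for all `f ∈ L^∞([-1,1]^n)`. -/
def Estimate (n : ℕ) (q : ℝ) : Prop :=
  ∃ C : ℝ≥0, ∀ f : (Fin n → ℝ) → ℂ, MemLp f ∞ (volume.restrict (cube n)) →
    eLpNorm (ext f) (ENNReal.ofReal q) volume ≤ C * eLpNorm f ∞ (volume.restrict (cube n))

/-- The set `A` carries a nonzero complex measure `g ν` (`ν` a finite measure on `A`, `g` integrable
and not almost everywhere zero) whose extension is in `L^q`. -/
def Carries (n : ℕ) (q : ℝ) (A : Set (Fin n → ℝ)) : Prop :=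
  ∃ (ν : Measure (Fin n → ℝ)) (g : (Fin n → ℝ) → ℂ), IsFiniteMeasure ν ∧ ν Aᶜ = 0 ∧
    Integrable g ν ∧ ¬ (g =ᵐ[ν] 0) ∧ eLpNorm (extMeasure ν g) (ENNReal.ofReal q) volume < ∞

/-- **Uniqueness sets of almost full measure.** -/
theorem result (n : ℕ) (ε : ℝ) (hε : 0 < ε) :
    ∃ A : Set (Fin n → ℝ), IsCompact A ∧ A ⊆ cube n ∧ volume (cube n \ A) < ENNReal.ofReal ε ∧
      ∀ q : ℝ, 2 < q → (Estimate n q ↔ Carries n q A) :=
  Pool.Agent.E8helper87.Rst.universal_sets n hε

end Pool.Agent.Results.MP_b7167f_an.UniquenessSetsH87
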