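import Mathlib
import Pool.Agent.E8helper87.Rst.Univ
set_option autoImplicit false

/-!
# Universality of the Fourier integrals on the paraboloid, if the restriction conjecture fails

Let `d = n + 1`, `2 < q < ∞` and `p = q / (q - 1)`, and let `B_0, B_1, …` be any exhaustion of `ℝ^d`
by sets of finite measure. For `L ∈ L^p(ℝ^d)` let `T_k L` be the Fourier integral of `L 1_{B_k}` on the
truncated paraboloid. There are only two possibilities:

* the estimate `‖Ef‖_q ≤ C ‖f‖_∞` of the restriction conjecture holds, and for every `L ∈ L^p(ℝ^d)`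
  the partial Fourier integrals `T_k L` converge in `L^1` of the paraboloid;
* the estimate fails, and for quasi-every `L ∈ L^p(ℝ^d)` the partial Fourier integrals `T_k L` are
  universal: every measurable function on the paraboloid is the limit, almost everywhere, of a
  subsequence of `T_k L`.
-/

namespace Pool.Agent.Results.MP_b7167f_an.UniversalIntegralsH87

open MeasureTheory Set Complex Filter Topology
open scoped ENNReal NNReal

/-- The closed cube `[-1,1]^n`, where `n = d - 1`. -/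
abbrev cube (n : ℕ) : Set (Fin n → ℝ) := Icc (fun _ : Fin n => (-1 : ℝ)) (fun _ => 1)

/-- The function `exp(2πi(ξ·x + |ξ|² t))` of `ξ ∈ ℝ^n` and `(x, t) ∈ ℝ^(n+1)`. -/
noncomputable def wave {n : ℕ} (ξ : Fin n → ℝ) (y : (Fin n → ℝ) × ℝ) : ℂ :=
  cexp (2 * Real.pi * I * ((∑ j, ξ j * y.1 j + (∑ j, ξ j ^ 2) * y.2 : ℝ) : ℂ))

/-- The extension operator of the truncated paraboloid in `ℝ^(n+1)`. -/
noncomputable def ext {n : ℕ} (f : (Fin n → ℝ) → ℂ) (y : (Fin n → ℝ) × ℝ) : ℂ :=
  ∫ ξ in cube n, f ξ * wave ξ y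

/-- The estimate of the restriction conjecture at the exponent `q` in dimension `d = n + 1`: there
is a constant `C` with `‖Ef‖_{L^q(ℝ^d)} ≤ C ‖f‖_∞` for all `f ∈ L^∞([-1,1]^n)`. -/
def Estimate (n : ℕ) (q : ℝ) : Prop :=
  ∃ C : ℝ≥0, ∀ f : (Fin n → ℝ) → ℂ, MemLp f ∞ (volume.restrict (cube n)) →
    eLpNorm (ext f) (ENNReal.ofReal q) volume ≤ C * eLpNorm f ∞ (volume.restrict (cube n))

/-- The sets `B 0, B 1, …` are measurable and of finite measure, and almost every point is in all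
but finitely many of them (for example, the balls about `0` with radius `k`). -/
def Exhaustion {n : ℕ} (B : ℕ → Set ((Fin n → ℝ) × ℝ)) : Prop :=
  (∀ k, MeasurableSet (B k)) ∧ (∀ k, volume (B k) < ∞) ∧ ∀ᵐ y, ∀ᶠ k in atTop, y ∈ B k

/-- The partial Fourier integral of `L` over `B k`, at the point `(ξ, |ξ|²)` of the paraboloid. -/
noncomputable def partialIntegral {n : ℕ} (B : ℕ → Set ((Fin n → ℝ) × ℝ))
    (L : (Fin n → ℝ) × ℝ → ℂ) (k : ℕ) (ξ : Fin n → ℝ) : ℂ :=
  ∫ y in B k, L y * wave ξ y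

/-- The partial integrals of `L` are universal: every measurable function on the cube is the limit,
almost everywhere, of a subsequence of the partial integrals. -/
def Universal {n : ℕ} (B : ℕ → Set ((Fin n → ℝ) × ℝ)) (L : (Fin n → ℝ) × ℝ → ℂ) : Prop :=
  ∀ h : (Fin n → ℝ) → ℂ, AEStronglyMeasurable h (volume.restrict (cube n)) →
    ∃ φ : ℕ → ℕ, StrictMono φ ∧ ∀ᵐ ξ ∂(volume.restrict (cube n)),
      Tendsto (fun j => partialIntegral B L (φ j) ξ) atTop (𝓝 (h ξ))

/-- For every `L ∈ L^p(ℝ^d)` the partial integrals of `L` converge in `L^1` of the cube. -/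
def ConvergesInL1 {n : ℕ} (p : ℝ) (B : ℕ → Set ((Fin n → ℝ) × ℝ)) : Prop :=
  ∀ L : (Fin n → ℝ) × ℝ → ℂ, MemLp L (ENNReal.ofReal p) volume →
    ∃ h : (Fin n → ℝ) → ℂ, IntegrableOn h (cube n) ∧
      Tendsto (fun k => ∫⁻ ξ in cube n, ‖partialIntegral B L k ξ - h ξ‖ₑ) atTop (𝓝 0)

/-- The space `L^p(ℝ^d)`. -/
abbrev LpSpace (n : ℕ) (p : ℝ) : Type :=
  Lp ℂ (ENNReal.ofReal p) (volume : Measure ((Fin n → ℝ) × ℝ))

/-- The functions of `L^p(ℝ^d)` whose partial integrals are universal. -/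
def universalSet {n : ℕ} (p : ℝ) (B : ℕ → Set ((Fin n → ℝ) × ℝ)) : Set (LpSpace n p) :=
  {L | Universal B L}

/-- **Convergence in `L^1` or universality.** -/
theorem result (n : ℕ) (p q : ℝ) [Fact (1 ≤ ENNReal.ofReal p)] (hpq : p.HolderConjugate q)
    (hq : 2 < q) (B : ℕ → Set ((Fin n → ℝ) × ℝ)) (hB : Exhaustion B) :
    (Estimate n q ∧ ConvergesInL1 p B) ∨
      (¬ Estimate n q ∧ universalSet p B ∈ residual (LpSpace n p)) :=
  Pool.Agent.E8helper87.Rst.dichotomy hpq hq hB

end Pool.Agent.Results.MP_b7167f_an.UniversalIntegralsH87
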