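import Mathlib
import Pool.Agent.E8helper87.Rst.Dich
set_option autoImplicit false

/-!
# Universal test functions for the restriction conjecture for the paraboloid

Let `d = n + 1`. For quasi-every `f ∈ C([-1,1]^n)`, and also for some continuous unimodular `f` as
close to the constant `1` as we like, the following holds for every exponent `2 ≤ q < ∞` at once:
the estimate `‖Eg‖_q ≤ C ‖g‖_∞` of the restriction conjecture holds for all bounded `g` if and only
if `E(f φ)` is in `L^q` for one nonzero real-valued integrable weight `φ`.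
-/

namespace Pool.Agent.Results.MP_b7167f_an.UniversalTestFunctionsH87

open MeasureTheory Set Complex
open scoped ENNReal NNReal

/-- The closed cube `[-1,1]^n`, where `n = d - 1`. -/
abbrev cube (n : ℕ) : Set (Fin n → ℝ) := Icc (fun _ : Fin n => (-1 : ℝ)) (fun _ => 1)

/-- The extension operator of the truncated paraboloid in `ℝ^(n+1)`:
`Ef(x,t) = ∫_{[-1,1]^n} f(ξ) exp(2πi(ξ·x + |ξ|² t)) dξ`. -/
noncomputable def ext {n : ℕ} (f : (Fin n → ℝ) → ℂ) (y : (Fin n → ℝ) × ℝ) : ℂ :=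
  ∫ ξ in cube n,
    f ξ * cexp (2 * Real.pi * I * ((∑ j, ξ j * y.1 j + (∑ j, ξ j ^ 2) * y.2 : ℝ) : ℂ))

/-- The estimate of the restriction conjecture at the exponent `q` in dimension `d = n + 1`: there
is a constant `C` with `‖Ef‖_{L^q(ℝ^d)} ≤ C ‖f‖_∞` for all `f ∈ L^∞([-1,1]^n)`. -/
def Estimate (n : ℕ) (q : ℝ) : Prop :=
  ∃ C : ℝ≥0, ∀ f : (Fin n → ℝ) → ℂ, MemLp f ∞ (volume.restrict (cube n)) →
    eLpNorm (ext f) (ENNReal.ofReal q) volume ≤ C * eLpNorm f ∞ (volume.restrict (cube n))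

/-- There is a real-valued integrable function `φ` on the cube, not almost everywhere zero, such
that `E(f φ)` is in `L^q`. -/
def RealMultiple (n : ℕ) (q : ℝ) (f : (Fin n → ℝ) → ℂ) : Prop :=
  ∃ φ : (Fin n → ℝ) → ℝ, IntegrableOn φ (cube n) ∧ ¬ (φ =ᵐ[volume.restrict (cube n)] 0) ∧
    eLpNorm (ext (fun ξ => f ξ * (φ ξ : ℂ))) (ENNReal.ofReal q) volume < ∞

/-- The extension by zero of a continuous function on the cube. -/
noncomputable def zeroExt {n : ℕ} (f : C(cube n, ℂ)) (ξ : Fin n → ℝ) : ℂ :=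
  open Classical in if h : ξ ∈ cube n then f ⟨ξ, h⟩ else 0

/-- **Universal test functions.** -/
theorem result :
    (∀ n : ℕ, {f : C(cube n, ℂ) | ∀ q : ℝ, 2 ≤ q →
      (Estimate n q ↔ RealMultiple n q (zeroExt f))} ∈ residual C(cube n, ℂ)) ∧
    (∀ (n : ℕ) (ε : ℝ), 0 < ε → ∃ f : (Fin n → ℝ) → ℂ, Continuous f ∧ (∀ ξ, ‖f ξ‖ = 1) ∧
      (∀ ξ, ‖f ξ - 1‖ ≤ ε) ∧ ∀ q : ℝ, 2 ≤ q → (Estimate n q ↔ RealMultiple n q f)) :=
  ⟨fun n => Pool.Agent.E8helper87.Rst.residual_test n,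
    fun n _ hε => Pool.Agent.E8helper87.Rst.exists_unimodular n hε⟩

end Pool.Agent.Results.MP_b7167f_an.UniversalTestFunctionsH87
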